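import Pool.Agent.Helper95.Lin.GoalsI

/-!
# Packet CRYST
-/

open Complex Metric Set Filter Topology MeasureTheory
open scoped ContDiff ComplexConjugate ComplexOrder

namespace Helper94.Lin

open Pool.Agent.Helper95.Lin

section

variable {N : Type} [Group N] {α β : N → ℂ}

theorem alpha_pow (h1 : α 1 = 1) (hm : ∀ ν ν', α (ν * ν') = α ν * α ν') (ν : N) (k : ℕ) :
    α (ν ^ k) = α ν ^ k := by
  induction k with
  | zero => simp [h1]
  | succ k ih => rw [pow_succ, hm, ih, pow_succ]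

theorem fix_pow (h1 : α 1 = 1) (hb1 : β 1 = 0) (hm : ∀ ν ν', α (ν * ν') = α ν * α ν')
    (hb : ∀ ν ν', β (ν * ν') = α ν * β ν' + β ν) (ν : N) (w : ℂ) (hw : α ν * w + β ν = w) (k : ℕ) :
    α (ν ^ k) * w + β (ν ^ k) = w := by
  induction k with
  | zero => simp [h1, hb1]
  | succ k ih =>
    rw [pow_succ, hm, hb]
    calc α (ν ^ k) * α ν * w + (α (ν ^ k) * β ν + β (ν ^ k))
        = α (ν ^ k) * (α ν * w + β ν) + β (ν ^ k) := by ring
      _ = w := by rw [hw, ih]

theorem norm_alpha (hne : ∀ ν, α ν ≠ 0) (h1 : α 1 = 1) (hb1 : β 1 = 0)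
    (hm : ∀ ν ν', α (ν * ν') = α ν * α ν') (hb : ∀ ν ν', β (ν * ν') = α ν * β ν' + β ν)
    (hp : ∀ R : ℝ, {ν | ∃ w : ℂ, ‖w‖ ≤ R ∧ ‖α ν * w + β ν‖ ≤ R}.Finite) (ν : N) : ‖α ν‖ = 1 := by
  by_cases h : α ν = 1
  · rw [h, norm_one]
  · have h' : 1 - α ν ≠ 0 := fun e => h (sub_eq_zero.mp e).symm
    set w : ℂ := β ν / (1 - α ν) with hw
    have hfix : α ν * w + β ν = w := by
      rw [hw]
      field_simp
      ring
    have hfin := hp ‖w‖
    have hmaps : ∀ k : ℕ, ν ^ k ∈ {ν | ∃ z : ℂ, ‖z‖ ≤ ‖w‖ ∧ ‖α ν * z + β ν‖ ≤ ‖w‖} := fun k =>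
      ⟨w, le_rfl, by rw [fix_pow h1 hb1 hm hb ν w hfix k]⟩
    have : ∃ i j : ℕ, i ≠ j ∧ ν ^ i = ν ^ j := by
      haveI := hfin.to_subtype
      obtain ⟨i, j, hij, he⟩ := Finite.exists_ne_map_eq_of_infinite
        (fun k : ℕ => (⟨ν ^ k, hmaps k⟩ : {ν | ∃ z : ℂ, ‖z‖ ≤ ‖w‖ ∧ ‖α ν * z + β ν‖ ≤ ‖w‖}))
      exact ⟨i, j, hij, congrArg Subtype.val he⟩
    obtain ⟨i, j, hij, he⟩ := this
    have e1 : α ν ^ i = α ν ^ j := by
      rw [← alpha_pow h1 hm, ← alpha_pow h1 hm, he]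
    have e2 : ‖α ν‖ ^ i = ‖α ν‖ ^ j := by
      rw [← norm_pow, ← norm_pow, e1]
    by_contra hne1
    exact hij (pow_right_injective₀ (norm_pos_iff.mpr (hne ν)) hne1 e2)

end

theorem cryst : S_CRYST := by
  intro N _ α β hne h1 hb1 hm hb hp hc
  obtain ⟨R, hR⟩ := hc
  have hnorm : ∀ ν, ‖α ν‖ = 1 := norm_alpha hne h1 hb1 hm hb hp
  by_contra hcon
  push Not at hcon
  have hinv : ∀ ν, α ν * α ν⁻¹ = 1 := fun ν => by rw [← hm, mul_inv_cancel, h1]
  have hbinv : ∀ ν, α ν * β ν⁻¹ + β ν = 0 := fun ν => by rw [← hb, mul_inv_cancel, hb1]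
  by_cases hB : ∀ t, α t = 1 → β t = 0
  · -- no translations
    have hcomm : ∀ ν ν', α ν * β ν' + β ν = α ν' * β ν + β ν' := by
      intro ν ν'
      have e1 : α (ν * ν' * (ν' * ν)⁻¹) = 1 := by
        have := hinv (ν' * ν)
        rw [hm, hm, mul_comm (α ν) (α ν'), ← hm]
        exact this
      have e2 := hB _ e1
      have e3 : β (ν * ν') = β (ν' * ν) := by
        have e4 : ν * ν' = (ν * ν' * (ν' * ν)⁻¹) * (ν' * ν) := by group
        rw [e4, hb, e1, e2]
        ring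
      rw [hb, hb] at e3
      exact e3
    have hw0 : ∃ w₀ : ℂ, ∀ ν, β ν = (1 - α ν) * w₀ := by
      by_cases hall : ∀ ν, α ν = 1
      · exact ⟨0, fun ν => by rw [hB ν (hall ν), mul_zero]⟩
      · push Not at hall
        obtain ⟨ν₀, hν₀⟩ := hall
        have h' : 1 - α ν₀ ≠ 0 := fun e => hν₀ (sub_eq_zero.mp e).symm
        refine ⟨β ν₀ / (1 - α ν₀), fun ν => ?_⟩
        have := hcomm ν₀ ν
        rw [← mul_div_assoc, eq_div_iff h']
        linear_combination -this
    obtain ⟨w₀, hw₀⟩ := hw0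
    obtain ⟨ν, hν⟩ := hR (w₀ + ((R + ‖w₀‖ + 1 : ℝ) : ℂ))
    have hR0 : 0 ≤ R := (norm_nonneg _).trans hν
    have e1 : α ν * (w₀ + ((R + ‖w₀‖ + 1 : ℝ) : ℂ)) + β ν =
        α ν * ((R + ‖w₀‖ + 1 : ℝ) : ℂ) + w₀ := by
      rw [hw₀ ν]; ring
    rw [e1] at hν
    have e2 : ‖α ν * ((R + ‖w₀‖ + 1 : ℝ) : ℂ)‖ = R + ‖w₀‖ + 1 := by
      rw [norm_mul, hnorm, one_mul, Complex.norm_real, Real.norm_eq_abs,
        abs_of_nonneg (by positivity)]
    have e3 := norm_sub_le_norm_add (α ν * ((R + ‖w₀‖ + 1 : ℝ) : ℂ)) w₀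
    linarith
  · push Not at hB
    obtain ⟨t₀, ht₀, hb₀⟩ := hB
    set b := β t₀ with hbdef
    have hdep : ∀ t, α t = 1 → ∃ a : ℝ, a • b = β t := by
      intro t ht
      have := hcon t₀ t ht₀ ht
      rw [LinearIndependent.pair_iff' hb₀] at this
      push Not at this
      exact this
    have hphi : ∀ t, α t = 1 → (β t / b).im = 0 := by
      intro t ht
      obtain ⟨a, ha⟩ := hdep t ht
      rw [← ha, Complex.real_smul, mul_div_cancel_right₀ _ hb₀, Complex.ofReal_im]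
    have hreal : ∀ ν, (α ν).im = 0 := by
      intro ν
      have e1 : α (ν * t₀ * ν⁻¹) = 1 := by
        rw [hm, hm, ht₀, mul_one, hinv]
      have e2 : β (ν * t₀ * ν⁻¹) = α ν * b := by
        rw [hb, hb, hm, ht₀]
        linear_combination hbinv ν
      have e3 := hphi _ e1
      rw [e2, mul_div_cancel_right₀ _ hb₀] at e3
      exact e3
    have hpm : ∀ ν, α ν = 1 ∨ α ν = -1 := by
      intro ν
      have e1 : (α ν).re ^ 2 = 1 := by
        have := Complex.sq_norm_sub_sq_re (α ν)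
        rw [hnorm, hreal] at this
        linarith
      rcases (show (α ν).re = 1 ∨ (α ν).re = -1 from by
        have : ((α ν).re - 1) * ((α ν).re + 1) = 0 := by linear_combination e1
        rcases mul_eq_zero.mp this with h | h
        · left; linarith
        · right; linarith) with h | h
      · left
        apply Complex.ext
        · simpa using h
        · simpa using hreal ν
      · right
        apply Complex.ext
        · simpa using h
        · simpa using hreal ν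
    have hc : ∃ c : ℝ, ∀ ν, |(β ν / b).im| ≤ |c| := by
      by_cases hex : ∃ ν₀, α ν₀ = -1
      · obtain ⟨ν₀, hν₀⟩ := hex
        refine ⟨(β ν₀ / b).im, fun ν => ?_⟩
        rcases hpm ν with h | h
        · rw [hphi ν h, abs_zero]
          exact abs_nonneg _
        · have e1 : α (ν * ν₀) = 1 := by rw [hm, h, hν₀]; norm_num
          have e2 := hphi _ e1
          rw [hb, h] at e2
          have e3 : (-1 * β ν₀ + β ν) / b = β ν / b - β ν₀ / b := by ring
          rw [e3, Complex.sub_im, sub_eq_zero] at e2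
          rw [e2]
      · push Not at hex
        refine ⟨0, fun ν => ?_⟩
        rcases hpm ν with h | h
        · rw [hphi ν h]
        · exact absurd h (hex ν)
    obtain ⟨c, hc⟩ := hc
    have hbpos : 0 < ‖b‖ := norm_pos_iff.mpr hb₀
    have hR0 : 0 ≤ R := by
      obtain ⟨ν, hν⟩ := hR 0
      exact (norm_nonneg _).trans hν
    set s : ℝ := R / ‖b‖ + |c| + 1 with hs
    have hs0 : 0 ≤ s := by positivity
    obtain ⟨ν, hν⟩ := hR ((s : ℂ) * I * b)
    have e1 : |((α ν * ((s : ℂ) * I * b) + β ν) / b).im| ≤ R / ‖b‖ := by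
      refine (Complex.abs_im_le_norm _).trans ?_
      rw [norm_div]
      exact div_le_div_of_nonneg_right hν hbpos.le
    have e2 : (α ν * ((s : ℂ) * I * b) + β ν) / b = α ν * ((s : ℂ) * I) + β ν / b := by
      field_simp
    rw [e2, Complex.add_im] at e1
    have e3 := hc ν
    have e4 : (α ν * ((s : ℂ) * I)).im = s ∨ (α ν * ((s : ℂ) * I)).im = -s := by
      rcases hpm ν with h | h
      · left; rw [h]; simp
      · right; rw [h]; simp
    rcases abs_le.mp e1 with ⟨e5, e6⟩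
    rcases abs_le.mp e3 with ⟨e7, e8⟩
    rcases e4 with h | h
    · rw [h] at e5 e6
      linarith
    · rw [h] at e5 e6
      linarith

end Helper94.Lin
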