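import Pool.Agent.Helper95.Lin.GoalsA
import Pool.Agent.Helper95.Lin.Basics

/-! Packet DLIM: locally uniform limits of holomorphic maps. -/

open Complex Metric Set Filter Topology

namespace Pool.Agent.Helper94.Lin

open Pool.Agent.Helper95.Lin

theorem dlim_cauchy {n m : ℕ} {U : Set (Cn n)} (hU : IsOpen U) {f : ℕ → Cn n → Cn m}
    {F : Cn n → Cn m} (hf : ∀ k, DifferentiableOn ℂ (f k) U)
    (hF : ∀ K ⊆ U, IsCompact K → ∀ ε > 0, ∀ᶠ k in atTop, ∀ z ∈ K, ‖f k z - F z‖ ≤ ε)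
    {K : Set (Cn n)} (hKU : K ⊆ U) (hK : IsCompact K) {ε : ℝ} (hε : 0 < ε) :
    ∃ N : ℕ, ∀ k ≥ N, ∀ l ≥ N, ∀ z ∈ K, ‖fderiv ℂ (f k) z - fderiv ℂ (f l) z‖ ≤ ε := by
  obtain ⟨δ, hδ, hsub⟩ := hK.exists_cthickening_subset_open hU hKU
  have hK' : IsCompact (cthickening δ K) := hK.cthickening
  obtain ⟨N, hN⟩ := eventually_atTop.1 (hF _ hsub hK' (ε * (δ / 2) / 2) (by positivity))
  refine ⟨N, fun k hk l hl z hz => ?_⟩
  have hball : ball z (2 * (δ / 2)) ⊆ cthickening δ K := by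
    intro w hw
    rw [mem_ball] at hw
    exact mem_cthickening_of_dist_le w z δ K hz (by linarith)
  have h1 : DifferentiableOn ℂ (fun w => f k w - f l w) (ball z (2 * (δ / 2))) :=
    ((hf k).sub (hf l)).mono (hball.trans hsub)
  have h2 : ∀ w ∈ ball z (2 * (δ / 2)), ‖f k w - f l w‖ ≤ ε * (δ / 2) := by
    intro w hw
    have a1 := hN k hk w (hball hw)
    have a2 := hN l hl w (hball hw)
    calc ‖f k w - f l w‖ = ‖(f k w - F w) - (f l w - F w)‖ := by congr 1; abel
      _ ≤ ‖f k w - F w‖ + ‖f l w - F w‖ := norm_sub_le _ _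
      _ ≤ ε * (δ / 2) := by linarith
  have h3 := Pool.Agent.Helper8.Abund.norm_fderiv_le_of_bound (by positivity) h1 h2
  have hzU : U ∈ 𝓝 z := hU.mem_nhds (hKU hz)
  have h4 : fderiv ℂ (fun w => f k w - f l w) z = fderiv ℂ (f k) z - fderiv ℂ (f l) z :=
    (((hf k).differentiableAt hzU).hasFDerivAt.sub
      ((hf l).differentiableAt hzU).hasFDerivAt).fderiv
  rw [h4] at h3
  calc _ ≤ _ := h3
    _ = ε := by field_simp

/-- DLIM. -/
theorem dlim : S_DLIM := by
  intro n m U hU f F hf hF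
  have hex : ∀ z : Cn n, z ∈ U → ∃ L, Tendsto (fun k => fderiv ℂ (f k) z) atTop (𝓝 L) := by
    intro z hz
    apply cauchySeq_tendsto_of_complete
    rw [Metric.cauchySeq_iff']
    intro ε hε
    obtain ⟨N, hN⟩ := dlim_cauchy hU hf hF (singleton_subset_iff.2 hz) isCompact_singleton
      (half_pos hε)
    refine ⟨N, fun k hk => ?_⟩
    rw [dist_eq_norm]
    exact (hN k hk N le_rfl z rfl).trans_lt (half_lt_self hε)
  choose! G hG using hex
  have hunif : ∀ K ⊆ U, IsCompact K → ∀ ε > 0, ∀ᶠ k in atTop, ∀ z ∈ K,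
      ‖fderiv ℂ (f k) z - G z‖ ≤ ε := by
    intro K hKU hK ε hε
    obtain ⟨N, hN⟩ := dlim_cauchy hU hf hF hKU hK hε
    rw [eventually_atTop]
    refine ⟨N, fun k hk z hz => ?_⟩
    have h1 : Tendsto (fun l => ‖fderiv ℂ (f k) z - fderiv ℂ (f l) z‖) atTop
        (𝓝 ‖fderiv ℂ (f k) z - G z‖) := (tendsto_const_nhds.sub (hG z (hKU hz))).norm
    exact le_of_tendsto h1 (eventually_atTop.2 ⟨N, fun l hl => hN k hk l hl z hz⟩)
  have hder : ∀ z ∈ U, HasFDerivAt F (G z) z := by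
    intro z hz
    refine hasFDerivAt_of_tendstoLocallyUniformlyOn (f := f) (f' := fun k => fderiv ℂ (f k))
      (l := atTop) hU ?_ (fun k x hx => ((hf k).differentiableAt (hU.mem_nhds hx)).hasFDerivAt)
      ?_ hz
    · rw [tendstoLocallyUniformlyOn_iff_forall_isCompact hU]
      intro K hKU hK
      rw [Metric.tendstoUniformlyOn_iff]
      intro ε hε
      filter_upwards [hunif K hKU hK (ε / 2) (half_pos hε)] with k hk x hx
      rw [dist_comm, dist_eq_norm]
      exact (hk x hx).trans_lt (half_lt_self hε)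
    · intro x hx
      rw [Metric.tendsto_atTop]
      intro ε hε
      obtain ⟨N, hN⟩ := eventually_atTop.1 (hF {x} (singleton_subset_iff.2 hx)
        isCompact_singleton (ε / 2) (half_pos hε))
      refine ⟨N, fun k hk => ?_⟩
      rw [dist_eq_norm]
      exact (hN k hk x rfl).trans_lt (half_lt_self hε)
  refine ⟨fun z hz => (hder z hz).differentiableAt.differentiableWithinAt, ?_⟩
  intro K hKU hK ε hε
  filter_upwards [hunif K hKU hK ε hε] with k hk z hz
  rw [(hder z (hKU hz)).fderiv]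
  exact hk z hz

end Pool.Agent.Helper94.Lin

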