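import Pool.Agent.Helper95.Lin.GoalsA

/-!
# Packets LIE1 and RIG
-/

open Complex Metric Set Filter Topology MeasureTheory
open scoped ContDiff ComplexConjugate ComplexOrder

namespace Helper94.Lin

open Pool.Agent.Helper95.Lin

theorem lie1 : S_LIE1 := by
  intro 𝔤 _ _ _ _ hs Γ _ ρ hρ
  classical
  have hex := LieAlgebra.IsSolvable.solvable ℝ 𝔤
  set k := Nat.find hex with hk
  have hk0 : LieAlgebra.derivedSeries ℝ 𝔤 k = ⊥ := Nat.find_spec hex
  have hkpos : k ≠ 0 := by
    intro h0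
    rw [h0, LieAlgebra.derivedSeries_def, LieAlgebra.derivedSeriesOfIdeal_zero] at hk0
    exact top_ne_bot hk0
  obtain ⟨l, hl⟩ := Nat.exists_eq_succ_of_ne_zero hkpos
  have hlne : LieAlgebra.derivedSeries ℝ 𝔤 l ≠ ⊥ := Nat.find_min hex (by omega)
  have hab : ∀ x ∈ LieAlgebra.derivedSeries ℝ 𝔤 l, ∀ y ∈ LieAlgebra.derivedSeries ℝ 𝔤 l,
      ⁅x, y⁆ = 0 := by
    intro x hx y hy
    have h1 : ⁅x, y⁆ ∈ LieAlgebra.derivedSeries ℝ 𝔤 k := by
      rw [hl, LieAlgebra.derivedSeries_def, LieAlgebra.derivedSeriesOfIdeal_succ]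
      exact LieSubmodule.lie_mem_lie hx hy
    rw [hk0, LieSubmodule.mem_bot] at h1
    exact h1
  have hinv : ∀ γ, ∀ x ∈ (LieAlgebra.derivedSeries ℝ 𝔤 l).toSubmodule,
      ρ γ x ∈ (LieAlgebra.derivedSeries ℝ 𝔤 l).toSubmodule := by
    intro γ x hx
    let f : 𝔤 →ₗ⁅ℝ⁆ 𝔤 := { ρ γ with map_lie' := fun {x y} => hρ γ x y }
    have h1 := LieIdeal.derivedSeries_map_le (R := ℝ) (f := f) l
    exact h1 (LieIdeal.mem_map (f := f) hx)
  obtain ⟨W, hW⟩ : ∃ W : Submodule ℝ 𝔤, W = (LieAlgebra.derivedSeries ℝ 𝔤 l).toSubmodule :=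
    ⟨_, rfl⟩
  rw [← hW] at hinv
  have habW : ∀ x ∈ W, ∀ y ∈ W, ⁅x, y⁆ = 0 := by
    rw [hW]; exact hab
  have hWne : W ≠ ⊥ := by
    rw [hW]
    intro h
    exact hlne (by simpa using h)
  have hnt : Nontrivial W := (Submodule.nontrivial_iff_ne_bot).mpr hWne
  let b := Module.finBasis ℝ W
  refine ⟨Module.finrank ℝ W, fun i => (b i : 𝔤),
    { toFun := fun γ => LinearMap.toMatrix b b ((ρ γ).restrict (hinv γ))
      map_one' := ?_
      map_mul' := ?_ }, Module.finrank_pos, ?_, ?_, ?_⟩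
  · have : (ρ 1).restrict (hinv 1) = LinearMap.id := by
      ext x
      simp
    rw [this, LinearMap.toMatrix_id]
  · intro γ γ'
    have : (ρ (γ * γ')).restrict (hinv (γ * γ')) =
        ((ρ γ).restrict (hinv γ)) ∘ₗ ((ρ γ').restrict (hinv γ')) := by
      ext x
      simp
    rw [this, LinearMap.toMatrix_comp b b b]
  · exact b.linearIndependent.map' W.subtype (Submodule.ker_subtype W)
  · intro i j
    exact habW _ (b i).2 _ (b j).2
  · intro γ i
    have h1 : ((ρ γ).restrict (hinv γ)) (b i) =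
        ∑ k, LinearMap.toMatrix b b ((ρ γ).restrict (hinv γ)) k i • b k := by
      rw [← b.sum_repr (((ρ γ).restrict (hinv γ)) (b i))]
      refine Finset.sum_congr rfl fun k _ => ?_
      rw [LinearMap.toMatrix_apply]
    have h2 := congrArg (fun w : W => (w : 𝔤)) h1
    simp only [LinearMap.coe_restrict_apply] at h2
    rw [h2]
    simp

/-! ### RIG -/

/-- The defect of being a derivation, on basis vectors. -/
noncomputable def defect {p : ℕ} (B : Br p) : Endo p →ₗ[ℝ] (Fin p → Fin p → Fin p → ℝ) where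
  toFun N := fun i j => N (B (Pi.single i 1) (Pi.single j 1)) -
    B (N (Pi.single i 1)) (Pi.single j 1) - B (Pi.single i 1) (N (Pi.single j 1))
  map_add' N N' := by
    funext i j
    simp only [ContinuousLinearMap.add_apply, map_add, LinearMap.add_apply, Pi.add_apply]
    abel
  map_smul' c N := by
    funext i j
    simp only [ContinuousLinearMap.smul_apply, map_smul, LinearMap.smul_apply, Pi.smul_apply,
      RingHom.id_apply, smul_sub]

theorem defect_eq_zero {p : ℕ} (B : Br p) (N : Endo p) (h : defect B N = 0) (x y : Fin p → ℝ) :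
    N (B x y) = B (N x) y + B x (N y) := by
  have h1 : ∀ i j, N (B (Pi.single i 1) (Pi.single j 1)) =
      B (N (Pi.single i 1)) (Pi.single j 1) + B (Pi.single i 1) (N (Pi.single j 1)) := by
    intro i j
    have := congrFun (congrFun h i) j
    have h2 : N (B (Pi.single i 1) (Pi.single j 1)) -
      B (N (Pi.single i 1)) (Pi.single j 1) - B (Pi.single i 1) (N (Pi.single j 1)) = 0 := this
    rw [sub_sub, sub_eq_zero] at h2
    exact h2
  -- both sides are bilinear
  let F : (Fin p → ℝ) →ₗ[ℝ] (Fin p → ℝ) →ₗ[ℝ] (Fin p → ℝ) :=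
    LinearMap.mk₂ ℝ (fun x y => N (B x y) - (B (N x) y + B x (N y)))
      (fun x x' y => by simp only [map_add, LinearMap.add_apply]; abel)
      (fun c x y => by simp only [map_smul, LinearMap.smul_apply, smul_sub, smul_add])
      (fun x y y' => by simp only [map_add]; abel)
      (fun c x y => by simp only [map_smul, smul_sub, smul_add])
  have hF : F = 0 := by
    refine (Pi.basisFun ℝ (Fin p)).ext fun i => (Pi.basisFun ℝ (Fin p)).ext fun j => ?_
    simp only [Pi.basisFun_apply, LinearMap.zero_apply]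
    show N (B (Pi.single i 1) (Pi.single j 1)) - (B (N (Pi.single i 1)) (Pi.single j 1) +
      B (Pi.single i 1) (N (Pi.single j 1))) = 0
    rw [h1, sub_self]
  have h3 : F x y = 0 := by rw [hF]; rfl
  have h4 : N (B x y) - (B (N x) y + B x (N y)) = 0 := h3
  exact sub_eq_zero.mp h4

theorem rig : S_RIG := by
  intro p B hB
  -- bound of the bracket
  let ad : (Fin p → ℝ) →ₗ[ℝ] Endo p :=
    { toFun := fun x => adB B x
      map_add' := fun x y => by
        ext1 z
        simp [adB]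
      map_smul' := fun c x => by
        ext1 z
        simp [adB] }
  obtain ⟨CB, hCB0, hCB⟩ : ∃ C : ℝ, 0 ≤ C ∧ ∀ x, ‖adB B x‖ ≤ C * ‖x‖ :=
    ⟨‖LinearMap.toContinuousLinearMap ad‖, ContinuousLinearMap.opNorm_nonneg _, fun x =>
      (LinearMap.toContinuousLinearMap ad).le_opNorm x⟩
  have hBb : ∀ x y, ‖B x y‖ ≤ CB * ‖x‖ * ‖y‖ := by
    intro x y
    have h1 : B x y = adB B x y := rfl
    rw [h1]
    exact ((adB B x).le_opNorm y).trans (mul_le_mul_of_nonneg_right (hCB x) (norm_nonneg _))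
  -- a right inverse
  obtain ⟨S, hS⟩ := (defect B).rangeRestrict.exists_rightInverse_of_surjective
    (LinearMap.range_rangeRestrict _)
  obtain ⟨CS, hCS0, hCS⟩ : ∃ C : ℝ, 0 ≤ C ∧ ∀ x, ‖S x‖ ≤ C * ‖x‖ :=
    ⟨‖LinearMap.toContinuousLinearMap S‖, ContinuousLinearMap.opNorm_nonneg _, fun x =>
      (LinearMap.toContinuousLinearMap S).le_opNorm x⟩
  refine ⟨CS * CB, by positivity, fun h hh => ?_⟩
  set N : Endo p := h - 1 with hN
  set w := (defect B).rangeRestrict N with hw
  have hδw : defect B (N - S w) = 0 := by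
    rw [map_sub, sub_eq_zero]
    have h1 : (defect B).rangeRestrict (S w) = w := by
      have := LinearMap.congr_fun hS w
      exact this
    have h2 := congrArg (fun v : LinearMap.range (defect B) => (v : Fin p → Fin p → Fin p → ℝ)) h1
    have h3 : defect B (S w) = (w : Fin p → Fin p → Fin p → ℝ) := h2
    rw [h3]
    rfl
  obtain ⟨u, hu⟩ := hB.inner ((N - S w : Endo p) : (Fin p → ℝ) →ₗ[ℝ] (Fin p → ℝ))
    (fun x y => defect_eq_zero B _ hδw x y)
  refine ⟨u, ?_⟩
  have h1 : N - adB B u = S w := by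
    have : adB B u = N - S w := by
      ext1 y
      exact (hu y).symm
    rw [this]
    abel
  rw [h1]
  have h2 : ‖w‖ ≤ CB * ‖N‖ ^ 2 := by
    show ‖(w : Fin p → Fin p → Fin p → ℝ)‖ ≤ _
    rw [pi_norm_le_iff_of_nonneg (by positivity)]
    intro i
    rw [pi_norm_le_iff_of_nonneg (by positivity)]
    intro j
    have hval : (w : Fin p → Fin p → Fin p → ℝ) i j =
        N (B (Pi.single i 1) (Pi.single j 1)) -
        B (N (Pi.single i 1)) (Pi.single j 1) - B (Pi.single i 1) (N (Pi.single j 1)) := rfl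
    have hval2 : (w : Fin p → Fin p → Fin p → ℝ) i j =
        B (N (Pi.single i 1)) (N (Pi.single j 1)) := by
      rw [hval]
      have hNx : ∀ x, N x = h x - x := fun x => rfl
      rw [hNx, hNx, hNx, hh]
      simp only [map_sub, LinearMap.sub_apply]
      abel
    rw [hval2]
    refine (hBb _ _).trans ?_
    have hn : ∀ i : Fin p, ‖N (Pi.single i (1 : ℝ))‖ ≤ ‖N‖ := by
      intro i
      refine (N.le_opNorm _).trans ?_
      have : ‖(Pi.single i (1 : ℝ) : Fin p → ℝ)‖ ≤ 1 := by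
        rw [pi_norm_le_iff_of_nonneg zero_le_one]
        intro j
        by_cases hij : j = i
        · subst hij; simp
        · simp [Pi.single_eq_of_ne hij]
      calc ‖N‖ * ‖(Pi.single i (1 : ℝ) : Fin p → ℝ)‖ ≤ ‖N‖ * 1 :=
            mul_le_mul_of_nonneg_left this (norm_nonneg _)
        _ = ‖N‖ := mul_one _
    calc CB * ‖N (Pi.single i 1)‖ * ‖N (Pi.single j 1)‖ ≤ CB * ‖N‖ * ‖N‖ := by
          have h5 := hn i
          have h6 := hn j
          gcongr
      _ = CB * ‖N‖ ^ 2 := by ring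
  calc ‖S w‖ ≤ CS * ‖w‖ := hCS w
    _ ≤ CS * (CB * ‖N‖ ^ 2) := mul_le_mul_of_nonneg_left h2 hCS0
    _ = CS * CB * ‖N‖ ^ 2 := by ring

end Helper94.Lin
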