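import Pool.Agent.Helper95.Lin.GoalsA

/-!
# Packet LIE2
-/

open Complex Metric Set Filter Topology MeasureTheory
open scoped ContDiff ComplexConjugate ComplexOrder

namespace Helper94.Lin

open Pool.Agent.Helper95.Lin

section gen

variable {R : Type*} [CommRing R] {L L' : Type*} [LieRing L] [LieAlgebra R L] [LieRing L']
  [LieAlgebra R L']

open LieAlgebra

theorem derived_comap_le (f : L →ₗ⁅R⁆ L') (J : LieIdeal R L') (k : ℕ) :
    derivedSeriesOfIdeal R L k (J.comap f) ≤ (derivedSeriesOfIdeal R L' k J).comap f := by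
  induction k with
  | zero => simp
  | succ k ih =>
    rw [derivedSeriesOfIdeal_succ, derivedSeriesOfIdeal_succ]
    exact (LieSubmodule.mono_lie ih ih).trans (LieIdeal.comap_bracket_le f)

theorem comap_solvable (f : L →ₗ⁅R⁆ L') (J : LieIdeal R L') (hJ : IsSolvable J)
    (hk : IsSolvable f.ker) : IsSolvable (J.comap f) := by
  obtain ⟨k, hk'⟩ := IsSolvable.solvable R J
  obtain ⟨l, hl'⟩ := IsSolvable.solvable R f.ker
  rw [LieIdeal.derivedSeries_eq_bot_iff] at hk' hl'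
  refine IsSolvable.mk (k := l + k) ((LieIdeal.derivedSeries_eq_bot_iff _ _).mpr ?_)
  rw [derivedSeriesOfIdeal_add, ← le_bot_iff, ← hl']
  refine derivedSeriesOfIdeal_mono ?_ l
  refine (derived_comap_le f J k).trans ?_
  rw [hk']
  intro x hx
  rw [LieIdeal.mem_comap, LieSubmodule.mem_bot] at hx
  exact hx

end gen

section quot

variable {𝔤 : Type} [LieRing 𝔤] [LieAlgebra ℝ 𝔤]

/-- The quotient map as a Lie algebra homomorphism. -/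
def qmap (I : LieIdeal ℝ 𝔤) : 𝔤 →ₗ⁅ℝ⁆ 𝔤 ⧸ I :=
  { (I.toSubmodule.mkQ : 𝔤 →ₗ[ℝ] 𝔤 ⧸ I.toSubmodule) with
    map_lie' := fun {_ _} => rfl }

theorem qmap_surj (I : LieIdeal ℝ 𝔤) : Function.Surjective (qmap I) :=
  Submodule.mkQ_surjective I.toSubmodule

theorem qmap_eq_zero (I : LieIdeal ℝ 𝔤) (x : 𝔤) : qmap I x = 0 ↔ x ∈ I :=
  Submodule.Quotient.mk_eq_zero I.toSubmodule

theorem qmap_ker (I : LieIdeal ℝ 𝔤) : (qmap I).ker = I := by
  ext x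
  rw [LieHom.mem_ker]
  exact qmap_eq_zero I x

variable [FiniteDimensional ℝ 𝔤]

instance quot_trivialRadical :
    LieAlgebra.HasTrivialRadical ℝ (𝔤 ⧸ LieAlgebra.radical ℝ 𝔤) := by
  apply LieAlgebra.hasTrivialRadical_of_no_solvable_ideals
  intro J hJ
  have h1 : LieAlgebra.IsSolvable (J.comap (qmap (LieAlgebra.radical ℝ 𝔤))) := by
    apply comap_solvable _ _ hJ
    rw [qmap_ker]
    exact LieAlgebra.radicalIsSolvable ℝ 𝔤
  have h2 : J.comap (qmap (LieAlgebra.radical ℝ 𝔤)) ≤ LieAlgebra.radical ℝ 𝔤 :=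
    (LieAlgebra.LieIdeal.solvable_iff_le_radical ℝ 𝔤 _).mp h1
  rw [eq_bot_iff]
  intro y hy
  obtain ⟨x, rfl⟩ := qmap_surj (LieAlgebra.radical ℝ 𝔤) y
  rw [LieSubmodule.mem_bot, qmap_eq_zero]
  exact h2 (LieIdeal.mem_comap.mpr hy)

/-- Injective endomorphisms pull the radical back into itself. -/
theorem comap_radical_le (f : 𝔤 →ₗ⁅ℝ⁆ 𝔤) (hf : Function.Injective f) (x : 𝔤)
    (hx : f x ∈ LieAlgebra.radical ℝ 𝔤) : x ∈ LieAlgebra.radical ℝ 𝔤 := by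
  have hker : f.ker = ⊥ := by
    rw [eq_bot_iff]
    intro y hy
    rw [LieHom.mem_ker] at hy
    rw [LieSubmodule.mem_bot]
    exact hf (by rw [hy, map_zero])
  have h1 : LieAlgebra.IsSolvable ((LieAlgebra.radical ℝ 𝔤).comap f) := by
    apply comap_solvable _ _ (LieAlgebra.radicalIsSolvable ℝ 𝔤)
    rw [hker]
    exact LieAlgebra.isSolvableBot ℝ 𝔤
  exact (LieAlgebra.LieIdeal.solvable_iff_le_radical ℝ 𝔤 _).mp h1 (LieIdeal.mem_comap.mpr hx)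

end quot

section killing

variable {𝔰 : Type} [LieRing 𝔰] [LieAlgebra ℝ 𝔰] [FiniteDimensional ℝ 𝔰]
  [LieAlgebra.HasTrivialRadical ℝ 𝔰]

theorem center_zero (x : 𝔰) (h : ∀ y : 𝔰, ⁅x, y⁆ = 0) : x = 0 := by
  rw [← LieDerivation.IsKilling.ad_apply_eq_zero_iff ℝ 𝔰]
  ext y
  rw [LieDerivation.ad_apply_apply, h]
  rfl

theorem inner_der (δ : 𝔰 →ₗ[ℝ] 𝔰) (h : ∀ x y : 𝔰, δ ⁅x, y⁆ = ⁅δ x, y⁆ + ⁅x, δ y⁆) :
    ∃ u : 𝔰, ∀ y : 𝔰, δ y = ⁅u, y⁆ := by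
  obtain ⟨u, hu⟩ := LieDerivation.IsKilling.exists_eq_ad (R := ℝ) (L := 𝔰)
    { toLinearMap := δ
      leibniz' := fun a b => by
        rw [h, ← lie_skew b (δ a)]
        abel }
  refine ⟨u, fun y => ?_⟩
  have := congrArg (fun D : LieDerivation ℝ 𝔰 𝔰 => D y) hu
  simp only [LieDerivation.ad_apply_apply] at this
  exact this.symm

theorem perfect : Submodule.span ℝ {z : 𝔰 | ∃ x y : 𝔰, z = ⁅x, y⁆} = ⊤ := by
  by_contra hne
  obtain ⟨f, hf, hle⟩ := Submodule.exists_le_ker_of_lt_top _ (lt_top_iff_ne_top.mpr hne)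
  have hinj : Function.Injective (killingForm ℝ 𝔰) := by
    rw [← LinearMap.ker_eq_bot]
    exact LieAlgebra.IsKilling.ker_killingForm_eq_bot ℝ 𝔰
  have hsurj : Function.Surjective (killingForm ℝ 𝔰) :=
    (LinearMap.injective_iff_surjective_of_finrank_eq_finrank
      (Subspace.dual_finrank_eq (K := ℝ) (V := 𝔰)).symm).mp hinj
  obtain ⟨x, hx⟩ := hsurj f
  have hx0 : x = 0 := by
    apply center_zero
    intro y
    have h1 : killingForm ℝ 𝔰 ⁅x, y⁆ = 0 := by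
      ext z
      rw [LinearMap.zero_apply]
      have := LieModule.traceForm_apply_lie_apply ℝ 𝔰 𝔰 x y z
      rw [this]
      have h2 : (killingForm ℝ 𝔰) x ⁅y, z⁆ = f ⁅y, z⁆ := by rw [hx]
      refine h2.trans ?_
      exact hle (Submodule.subset_span ⟨y, z, rfl⟩)
    exact hinj (by rw [h1, map_zero])
  apply hf
  rw [← hx, hx0, map_zero]

end killing

theorem lie2 : S_LIE2 := by
  intro 𝔤 _ _ _ hns Γ _ ρ hρ
  obtain ⟨𝔯, h𝔯⟩ : ∃ I : LieIdeal ℝ 𝔤, I = LieAlgebra.radical ℝ 𝔤 := ⟨_, rfl⟩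
  have hrad : LieAlgebra.HasTrivialRadical ℝ (𝔤 ⧸ 𝔯) := by
    rw [h𝔯]; exact quot_trivialRadical
  haveI hfin : FiniteDimensional ℝ (𝔤 ⧸ 𝔯) :=
    inferInstanceAs (FiniteDimensional ℝ (𝔤 ⧸ 𝔯.toSubmodule))
  -- the quotient is nontrivial
  have hnt : Nontrivial (𝔤 ⧸ 𝔯) := by
    by_contra hnt
    rw [not_nontrivial_iff_subsingleton] at hnt
    apply hns
    have h1 : ∀ x : 𝔤, x ∈ LieAlgebra.radical ℝ 𝔤 := by
      intro x
      rw [← h𝔯, ← qmap_eq_zero]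
      exact Subsingleton.elim _ _
    have h2 : Function.Surjective (LieAlgebra.radical ℝ 𝔤).incl := fun x => ⟨⟨x, h1 x⟩, rfl⟩
    exact Function.Surjective.lieAlgebra_isSolvable h2
  -- the action on the quotient
  have hmem : ∀ γ, ∀ x ∈ 𝔯, ρ γ x ∈ 𝔯 := by
    intro γ x hx
    rw [h𝔯] at hx ⊢
    let f : 𝔤 →ₗ⁅ℝ⁆ 𝔤 := { ρ γ⁻¹ with map_lie' := fun {x y} => hρ γ⁻¹ x y }
    have hcomp : ∀ γ x, ρ γ (ρ γ⁻¹ x) = x := by
      intro γ x
      have : (ρ γ * ρ γ⁻¹) x = x := by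
        rw [← map_mul, mul_inv_cancel, map_one]; rfl
      exact this
    have hinj : Function.Injective f := by
      intro a b hab
      have h1 : ρ γ⁻¹ a = ρ γ⁻¹ b := hab
      rw [← hcomp γ a, h1, hcomp γ b]
    apply comap_radical_le f hinj
    have : f (ρ γ x) = x := by
      have := hcomp γ⁻¹ x
      rw [inv_inv] at this
      exact this
    rw [this]
    exact hx
  let P₀ : Γ → ((𝔤 ⧸ 𝔯) →ₗ[ℝ] (𝔤 ⧸ 𝔯)) := fun γ =>
    Submodule.mapQ 𝔯.toSubmodule 𝔯.toSubmodule (ρ γ) (fun x hx => hmem γ x hx)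
  have hP₀ : ∀ γ x, P₀ γ (qmap 𝔯 x) = qmap 𝔯 (ρ γ x) := fun γ x => rfl
  set p := Module.finrank ℝ (𝔤 ⧸ 𝔯) with hp
  let φ : (𝔤 ⧸ 𝔯) ≃ₗ[ℝ] (Fin p → ℝ) := (Module.finBasis ℝ (𝔤 ⧸ 𝔯)).equivFun
  let B : Br p := LinearMap.mk₂ ℝ (fun x y => φ ⁅φ.symm x, φ.symm y⁆)
    (fun x x' y => by simp [add_lie]) (fun c x y => by simp [smul_lie])
    (fun x y y' => by simp [lie_add]) (fun c x y => by simp [lie_smul])
  have hB : ∀ x y, B x y = φ ⁅φ.symm x, φ.symm y⁆ := fun x y => rfl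
  have hB' : ∀ x y, B (φ x) (φ y) = φ ⁅x, y⁆ := fun x y => by
    rw [hB, φ.symm_apply_apply, φ.symm_apply_apply]
  have hBs : ∀ x y, φ.symm (B x y) = ⁅φ.symm x, φ.symm y⁆ := fun x y => by
    rw [hB, φ.symm_apply_apply]
  let P : Γ →* Endo p :=
    { toFun := fun γ => LinearMap.toContinuousLinearMap
        ((φ : (𝔤 ⧸ 𝔯) →ₗ[ℝ] (Fin p → ℝ)) ∘ₗ P₀ γ ∘ₗ (φ.symm : (Fin p → ℝ) →ₗ[ℝ] (𝔤 ⧸ 𝔯)))
      map_one' := by
        ext1 x
        show φ (P₀ 1 (φ.symm x)) = x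
        obtain ⟨z, hz⟩ := qmap_surj 𝔯 (φ.symm x)
        rw [← hz, hP₀, map_one]
        show φ (qmap 𝔯 z) = x
        rw [hz, φ.apply_symm_apply]
      map_mul' := fun γ γ' => by
        ext1 x
        show φ (P₀ (γ * γ') (φ.symm x)) = φ (P₀ γ (φ.symm (φ (P₀ γ' (φ.symm x)))))
        obtain ⟨z, hz⟩ := qmap_surj 𝔯 (φ.symm x)
        rw [← hz, hP₀, hP₀, φ.symm_apply_apply, hP₀, map_mul]
        rfl }
  have hP : ∀ γ x, P γ x = φ (P₀ γ (φ.symm x)) := fun γ x => rfl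
  refine ⟨p, B, (φ : (𝔤 ⧸ 𝔯) →ₗ[ℝ] (Fin p → ℝ)) ∘ₗ (qmap 𝔯 : 𝔤 →ₗ[ℝ] 𝔤 ⧸ 𝔯), P, ?_, ?_, ?_, ?_⟩
  · refine ⟨Module.finrank_pos, ?_, ?_, ?_, ?_, ?_⟩
    · intro x y
      rw [hB, hB, ← map_neg, lie_skew]
    · intro x y z
      apply φ.symm.injective
      rw [map_add, hBs, hBs, hBs, hBs, hBs, hBs, leibniz_lie]
    · intro x hx
      have : φ.symm x = 0 := by
        apply center_zero
        intro y
        have := hx (φ y)
        rw [hB, φ.symm_apply_apply] at this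
        exact φ.injective (by rw [this, map_zero])
      exact φ.symm.injective (by rw [this, map_zero])
    · intro δ hδ
      obtain ⟨u, hu⟩ := inner_der
        ((φ.symm : (Fin p → ℝ) →ₗ[ℝ] (𝔤 ⧸ 𝔯)) ∘ₗ δ ∘ₗ (φ : (𝔤 ⧸ 𝔯) →ₗ[ℝ] (Fin p → ℝ))) (by
          intro x y
          show φ.symm (δ (φ ⁅x, y⁆)) = ⁅φ.symm (δ (φ x)), y⁆ + ⁅x, φ.symm (δ (φ y))⁆
          rw [← hB', hδ, map_add, hBs, hBs, φ.symm_apply_apply, φ.symm_apply_apply])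
      refine ⟨φ u, fun y => ?_⟩
      have h1 := hu (φ.symm y)
      have h2 : φ.symm (δ y) = ⁅u, φ.symm y⁆ := by
        have h3 : φ.symm (δ (φ (φ.symm y))) = ⁅u, φ.symm y⁆ := h1
        rwa [φ.apply_symm_apply] at h3
      apply φ.symm.injective
      rw [h2, hBs, φ.symm_apply_apply]
    · have h1 := perfect (𝔰 := 𝔤 ⧸ 𝔯)
      have h2 : Submodule.map (φ : (𝔤 ⧸ 𝔯) →ₗ[ℝ] (Fin p → ℝ))
          (Submodule.span ℝ {z : 𝔤 ⧸ 𝔯 | ∃ x y : 𝔤 ⧸ 𝔯, z = ⁅x, y⁆}) = ⊤ := by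
        rw [h1, Submodule.map_top, LinearEquiv.range]
      rw [Submodule.map_span] at h2
      rw [← h2]
      congr 1
      ext z
      constructor
      · rintro ⟨x, y, rfl⟩
        exact ⟨⁅φ.symm x, φ.symm y⁆, ⟨_, _, rfl⟩, (hB x y).symm⟩
      · rintro ⟨_, ⟨x, y, rfl⟩, rfl⟩
        exact ⟨φ x, φ y, (hB' x y).symm⟩
  · intro z
    obtain ⟨x, hx⟩ := qmap_surj 𝔯 (φ.symm z)
    refine ⟨x, ?_⟩
    show φ (qmap 𝔯 x) = z
    rw [hx, φ.apply_symm_apply]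
  · intro x y
    show φ (qmap 𝔯 ⁅x, y⁆) = B (φ (qmap 𝔯 x)) (φ (qmap 𝔯 y))
    rw [hB', LieHom.map_lie]
  · intro γ x
    show φ (qmap 𝔯 (ρ γ x)) = P γ (φ (qmap 𝔯 x))
    rw [hP, φ.symm_apply_apply, hP₀]

end Helper94.Lin
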