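import Pool.Agent.Helper95.Lin.GoalsG

/-!
# Packet STRIP
-/

open Complex Metric Set Filter Topology MeasureTheory
open scoped ContDiff ComplexConjugate ComplexOrder

namespace Helper94.Lin

open Pool.Agent.Helper95.Lin

/-- Pointwise inequality. -/
theorem pointwise_ineq (A B g d : ℂ) :
    ‖A‖ ^ 2 + ‖d‖ ^ 2 * ‖B‖ ^ 2 + (2 * (conj A * (d * g)) +
      2 * ((‖d‖ ^ 2 : ℝ) * (conj B * (g - B)))).re ≤ ‖A + d * g‖ ^ 2 := by
  have e1 : ‖A + d * g‖ ^ 2 = ‖A‖ ^ 2 + 2 * (conj A * (d * g)).re + ‖d‖ ^ 2 * ‖g‖ ^ 2 := by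
    have h := Complex.normSq_add A (d * g)
    rw [Complex.normSq_eq_norm_sq, Complex.normSq_eq_norm_sq, Complex.normSq_eq_norm_sq,
      norm_mul, mul_pow] at h
    rw [h]
    have : (A * conj (d * g)).re = (conj A * (d * g)).re := by
      rw [← Complex.conj_re (A * conj (d * g))]
      congr 1
      rw [map_mul, Complex.conj_conj]
    rw [this]
    ring
  have e2 : ‖B‖ ^ 2 + 2 * (conj B * (g - B)).re ≤ ‖g‖ ^ 2 := by
    have h : g = B + (g - B) := by ring
    have h2 := Complex.normSq_add B (g - B)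
    rw [← h, Complex.normSq_eq_norm_sq, Complex.normSq_eq_norm_sq, Complex.normSq_eq_norm_sq] at h2
    have h3 : (B * conj (g - B)).re = (conj B * (g - B)).re := by
      rw [← Complex.conj_re (B * conj (g - B))]
      congr 1
      rw [map_mul, Complex.conj_conj]
    rw [h3] at h2
    have := sq_nonneg ‖g - B‖
    linarith
  have e3 : (2 * (conj A * (d * g)) + 2 * ((‖d‖ ^ 2 : ℝ) * (conj B * (g - B)))).re =
      2 * (conj A * (d * g)).re + 2 * (‖d‖ ^ 2 * (conj B * (g - B)).re) := by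
    rw [Complex.add_re]
    have h1 : (2 * (conj A * (d * g))).re = 2 * (conj A * (d * g)).re := by
      rw [show (2 : ℂ) = ((2 : ℝ) : ℂ) by norm_num, Complex.re_ofReal_mul]
    have h2 : (2 * ((‖d‖ ^ 2 : ℝ) * (conj B * (g - B)))).re =
        2 * (‖d‖ ^ 2 * (conj B * (g - B)).re) := by
      rw [show (2 : ℂ) = ((2 : ℝ) : ℂ) by norm_num, Complex.re_ofReal_mul, Complex.re_ofReal_mul]
    rw [h1, h2]
  rw [e1, e3]
  have h4 := mul_le_mul_of_nonneg_left e2 (sq_nonneg ‖d‖)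
  linarith

/-- On some point of the circle the function `∑ |h_j|²` exceeds its value at the centre by
`r² ∑ |h_j'|²`. -/
theorem exists_circle {m : ℕ} {h : Fin m → ℂ → ℂ} {S : Set ℂ} (hS : IsOpen S)
    (hd : ∀ j, DifferentiableOn ℂ (h j) S) {c : ℂ} {r : ℝ} (hr : 0 < r) (hc : closedBall c r ⊆ S) :
    ∃ z ∈ sphere c r, ∑ j, ‖h j c‖ ^ 2 + r ^ 2 * ∑ j, ‖deriv (h j) c‖ ^ 2 ≤
      ∑ j, ‖h j z‖ ^ 2 := by
  have hcS : S ∈ 𝓝 c := hS.mem_nhds (hc (mem_closedBall_self hr.le))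
  have hg : ∀ j, DifferentiableOn ℂ (dslope (h j) c) S := fun j =>
    (Complex.differentiableOn_dslope hcS).mpr (hd j)
  set Φ : ℂ → ℂ := fun z => ∑ j, (2 * (conj (h j c) * ((z - c) * dslope (h j) c z)) +
      2 * ((r ^ 2 : ℝ) * (conj (deriv (h j) c) * (dslope (h j) c z - deriv (h j) c)))) with hΦ
  have hΦd : DifferentiableOn ℂ Φ S := by
    refine DifferentiableOn.fun_sum fun j _ => ?_
    have := hg j
    fun_prop
  have hΦc : Φ c = 0 := by
    rw [hΦ]
    simp [dslope_same]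
  have hexp : DifferentiableOn ℂ (fun z => Complex.exp (Φ z)) S := hΦd.cexp
  obtain ⟨z, hz, hmax⟩ := (isCompact_sphere c r).exists_isMaxOn
    (NormedSpace.sphere_nonempty.mpr hr.le)
    ((hexp.continuousOn.mono (sphere_subset_closedBall.trans hc)).norm)
  refine ⟨z, hz, ?_⟩
  have hdc : DiffContOnCl ℂ (fun z => Complex.exp (Φ z)) (ball c r) := by
    refine ⟨hexp.mono (ball_subset_closedBall.trans hc), ?_⟩
    rw [closure_ball c hr.ne']
    exact hexp.continuousOn.mono hc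
  have hle := Complex.norm_le_of_forall_mem_frontier_norm_le isBounded_ball hdc
    (C := ‖Complex.exp (Φ z)‖) (fun w hw => by
      rw [frontier_ball c hr.ne'] at hw
      exact hmax hw) (subset_closure (mem_ball_self hr))
  simp only [hΦc, Complex.exp_zero, norm_one, Complex.norm_exp] at hle
  have hre : 0 ≤ (Φ z).re := by
    by_contra hneg
    push Not at hneg
    have h0 : Real.exp (Φ z).re < Real.exp 0 := Real.exp_lt_exp.mpr hneg
    rw [Real.exp_zero] at h0
    linarith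
  have hzc : z ≠ c := by
    rintro rfl
    rw [mem_sphere, dist_self] at hz
    exact hr.ne hz
  have hnorm : ‖z - c‖ = r := by rw [← dist_eq_norm]; exact hz
  have hj : ∀ j, ‖h j c‖ ^ 2 + r ^ 2 * ‖deriv (h j) c‖ ^ 2 +
      (2 * (conj (h j c) * ((z - c) * dslope (h j) c z)) +
      2 * ((r ^ 2 : ℝ) * (conj (deriv (h j) c) * (dslope (h j) c z - deriv (h j) c)))).re ≤
      ‖h j z‖ ^ 2 := by
    intro j
    have h1 := pointwise_ineq (h j c) (deriv (h j) c) (dslope (h j) c z) (z - c)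
    rw [hnorm] at h1
    have h2 : h j c + (z - c) * dslope (h j) c z = h j z := by
      rw [dslope_of_ne _ hzc, slope_def_field]
      have : z - c ≠ 0 := sub_ne_zero.mpr hzc
      field_simp
      ring
    rw [h2] at h1
    exact h1
  have hsum := Finset.sum_le_sum (s := Finset.univ) fun j _ => hj j
  rw [Finset.sum_add_distrib, Finset.sum_add_distrib, ← Finset.mul_sum, ← Complex.re_sum] at hsum
  have : (∑ j, (2 * (conj (h j c) * ((z - c) * dslope (h j) c z)) +
      2 * ((r ^ 2 : ℝ) * (conj (deriv (h j) c) * (dslope (h j) c z - deriv (h j) c))))).re =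
      (Φ z).re := rfl
  rw [this] at hsum
  linarith

theorem strip : S_STRIP := by
  intro m h T c hT hc hd hb hcon
  set S : Set ℂ := {ζ | 0 < ζ.im ∧ ζ.im < T} with hSdef
  have hS : IsOpen S := by
    apply IsOpen.inter
    · exact isOpen_lt continuous_const Complex.continuous_im
    · exact isOpen_lt Complex.continuous_im continuous_const
  have hstep : ∀ ζ ∈ S, (3 / 2) * (T - ζ.im) < T → ∃ z ∈ S, T - z.im ≤ (3 / 2) * (T - ζ.im) ∧
      ∑ j, ‖h j ζ‖ ^ 2 + c ^ 2 / 4 ≤ ∑ j, ‖h j z‖ ^ 2 := by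
    intro ζ hζ hτ
    obtain ⟨h1, h2⟩ := hζ
    set τ := T - ζ.im with hτdef
    have hτ0 : 0 < τ := by linarith
    have hball : closedBall ζ (τ / 2) ⊆ S := by
      intro z hz
      rw [mem_closedBall, dist_eq_norm] at hz
      have h3 := (Complex.abs_im_le_norm (z - ζ)).trans hz
      rw [Complex.sub_im, abs_le] at h3
      exact ⟨by linarith [h3.1], by linarith [h3.2]⟩
    obtain ⟨z, hz, hle⟩ := exists_circle hS hd (by positivity : 0 < τ / 2) hball
    refine ⟨z, hball (sphere_subset_closedBall hz), ?_, ?_⟩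
    · have h3 := (Complex.abs_im_le_norm (z - ζ))
      rw [← dist_eq_norm, mem_sphere.mp hz, Complex.sub_im, abs_le] at h3
      linarith [h3.1]
    · refine le_trans ?_ hle
      obtain ⟨j, hj⟩ := hcon ζ h1 h2
      have h4 : (c / τ) ^ 2 ≤ ∑ j, ‖deriv (h j) ζ‖ ^ 2 := by
        refine le_trans ?_ (Finset.single_le_sum (f := fun j => ‖deriv (h j) ζ‖ ^ 2)
          (fun _ _ => sq_nonneg _) (Finset.mem_univ j))
        exact pow_le_pow_left₀ (by positivity) hj 2
      have h5 : c ^ 2 / 4 = (τ / 2) ^ 2 * (c / τ) ^ 2 := by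
        field_simp
        norm_num
      rw [h5]
      have := mul_le_mul_of_nonneg_left h4 (sq_nonneg (τ / 2))
      linarith
  have hiter : ∀ n : ℕ, ∀ τ₀ : ℝ, 0 < τ₀ → (3 / 2 : ℝ) ^ n * τ₀ < T → ∃ ζ ∈ S,
      T - ζ.im ≤ (3 / 2) ^ n * τ₀ ∧ (n : ℝ) * (c ^ 2 / 4) ≤ ∑ j, ‖h j ζ‖ ^ 2 := by
    intro n
    induction n with
    | zero =>
      intro τ₀ h0 h1
      refine ⟨⟨0, T - τ₀⟩, ⟨?_, ?_⟩, ?_, ?_⟩
      · simp only [pow_zero, one_mul] at h1
        show 0 < T - τ₀
        linarith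
      · show T - τ₀ < T
        linarith
      · show T - (T - τ₀) ≤ _
        simp
      · rw [Nat.cast_zero, zero_mul]
        exact Finset.sum_nonneg fun _ _ => sq_nonneg _
    | succ n ih =>
      intro τ₀ h0 h1
      have h2 : (3 / 2 : ℝ) ^ n * τ₀ < T := by
        refine lt_of_le_of_lt ?_ h1
        rw [pow_succ]
        have : 0 < (3 / 2 : ℝ) ^ n * τ₀ := by positivity
        nlinarith
      obtain ⟨ζ, hζ, hζ1, hζ2⟩ := ih τ₀ h0 h2
      have h3 : (3 / 2) * (T - ζ.im) ≤ (3 / 2) ^ (n + 1) * τ₀ := by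
        rw [pow_succ]
        linarith
      obtain ⟨z, hz, hz1, hz2⟩ := hstep ζ hζ (lt_of_le_of_lt h3 h1)
      refine ⟨z, hz, hz1.trans h3, ?_⟩
      push_cast
      linarith
  obtain ⟨n, hn⟩ := exists_nat_gt ((m : ℝ) / (c ^ 2 / 4))
  obtain ⟨ζ, hζ, -, hζ2⟩ := hiter n (T / 2 / (3 / 2) ^ n) (by positivity) (by
    rw [mul_div_cancel₀ _ (by positivity)]
    linarith)
  have h1 : ∑ j, ‖h j ζ‖ ^ 2 ≤ (m : ℝ) := by
    calc ∑ j, ‖h j ζ‖ ^ 2 ≤ ∑ _j : Fin m, (1 : ℝ) := Finset.sum_le_sum fun j _ => by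
          have := hb j ζ hζ.1 hζ.2
          have h0 := norm_nonneg (h j ζ)
          nlinarith
      _ = m := by simp
  rw [div_lt_iff₀ (by positivity)] at hn
  linarith

end Helper94.Lin
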